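import Pool.Agent.helper57.PP.Spec

/-!
# Row pp:SWP (MP_974a61_co): the sweep of the half in terms of the closed path
-/

set_option autoImplicit false

namespace Pool.Agent.helper57.PP

open Finset

theorem SWP (h1 : SWF_stmt) (h2 : DSC_stmt) (h3 : ISO_stmt) (h4 : ZL_stmt) : SWP_stmt := by
  intro W _ G σ m p A hD hG hH hno
  obtain ⟨-, per, inj, I4, I5, I6⟩ := h3 W G σ m p hD hG
  have hm : 3 ≤ m := hG.m3
  obtain ⟨-, Z1, Z2, Z3, Z4, Z5, Z6, Z7, Z8, Z9⟩ := h4 W m p hm per inj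
  have hAG : edges A ⊆ edges G := edges_mono hH.sub
  have hdisc : Disc A (p 0) (p m) (p 1 :: bl m p) (tl m p ++ [p (m + 1)]) := h2 W G σ m p A hD hG hH
  obtain ⟨L, R, U, ρ, tm, c1, c0, hS⟩ := h1 W A (p 0) (p m) (p 1) (bl m p) (tl m p) (p (m + 1)) hdisc
    (by
      intro x hx y hy hxy
      obtain ⟨i, hi, rfl⟩ := (Z1 x).1 hx
      obtain ⟨j, hj, rfl⟩ := (Z1 y).1 hy
      rcases le_total i j with hij | hij
      · have h := I4 i j hij (by omega) (hAG hxy)
        subst h
        exact (Z6 _).2 ⟨i, by omega, rfl⟩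
      · rw [Finset.pair_comm] at hxy ⊢
        have h := I4 j i hij (by omega) (hAG hxy)
        subst h
        exact (Z6 _).2 ⟨j, by omega, rfl⟩)
    (by
      intro x hx y hy hxy
      obtain ⟨i, hi, hi', rfl⟩ := (Z2 x).1 hx
      obtain ⟨j, hj, hj', rfl⟩ := (Z2 y).1 hy
      rcases le_total i j with hij | hij
      · have h := I4 i j hij (by omega) (hAG hxy)
        subst h
        exact (Z7 _).2 ⟨i, hi, by omega, rfl⟩
      · rw [Finset.pair_comm] at hxy ⊢
        have h := I4 j i hij (by omega) (hAG hxy)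
        subst h
        exact (Z7 _).2 ⟨j, hj, by omega, rfl⟩)
    (by
      intro b hb t ht htb
      obtain ⟨i, hi, hi', rfl⟩ := (Z3 b).1 hb
      obtain ⟨j, hj, hj', rfl⟩ := (Z5 t).1 ht
      rcases le_total j i with hij | hij
      · rw [Finset.pair_comm] at htb
        have h := I4 i (m + j) (by omega) (by omega) (hAG htb)
        omega
      · rw [← per i] at htb
        have h := I4 (m + j) (i + 2 * m) (by omega) (by omega) (hAG htb)
        omega)
    (by
      intro x hx hxP hxQ b hb t ht hh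
      obtain ⟨i, hi, hi', rfl⟩ := (Z3 b).1 hb
      obtain ⟨j, hj, hj', rfl⟩ := (Z4 t).1 ht
      obtain ⟨e1, e2⟩ := hh
      have e1' := hAG e1
      have e2' := hAG e2
      rcases le_total j i with hij | hij
      · rw [Finset.pair_comm] at e1' e2'
        have h := I5 i (m + j) x (by omega) (by omega) e1' e2'
        omega
      · have e3 := e1'
        rw [← per i, Finset.pair_comm] at e3
        have e4 := e2'
        rw [Finset.pair_comm] at e4
        have h := I5 (m + j) (i + 2 * m) x (by omega) (by omega) e4 e3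
        have hi1 : i = 1 := by omega
        have hj1 : m + j = 2 * m - 1 := by omega
        rw [hi1] at e1'
        rw [hj1] at e2'
        refine hno x hx (fun k hk => ?_) ⟨e1', e2'⟩
        obtain ⟨k', hk', hkk⟩ := I6 k
        rw [hkk] at hk
        rcases le_or_gt k' m with hle | hlt
        · exact hxP ((Z1 x).2 ⟨k', hle, hk⟩)
        · refine hxQ ((Z5 x).2 ⟨k' - m, by omega, by omega, ?_⟩)
          rw [hk]
          congr 1
          omega)
    (by
      intro x hx hxP hxQ hh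
      obtain ⟨e1, e2⟩ := hh
      have e1' := hAG e1
      have e2' := hAG e2
      rw [Finset.pair_comm] at e1' e2'
      have h := I5 1 (m + 1) x (by omega) (by omega) e1' e2'
      omega)
  have nP : ∀ x, (∀ i ≤ m, x ≠ p i) → x ∉ pth (p 0) (p 1 :: bl m p) (p m) := by
    intro x hx hxP
    obtain ⟨i, hi, he⟩ := (Z1 x).1 hxP
    exact hx i hi he
  have yP : ∀ x, x ∈ pth (p 0) (p 1 :: bl m p) (p m) → ∃ i ≤ m, x = p i := fun x hx => (Z1 x).1 hx
  refine ⟨L, R, U, ρ, tm, c1, c0, ?_⟩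
  refine
    { l := ?_, r := ?_, rt := ?_, u := ?_, inj := ?_, c := hS.c, p2 := ?_, p1 := ?_, p1' := ?_,
      p0 := ?_, inc := ?_ }
  · intro x hx hxP
    obtain ⟨a1, a2, a3, a4⟩ := hS.l x hx (nP x hxP)
    refine ⟨a1, a2, ?_, a4.imp (fun h => yP _ h) id⟩
    intro i hi hi' he
    exact a3 ((Z5 _).2 ⟨i, hi, hi', he⟩)
  · intro x hx hxP
    obtain ⟨a1, a2, a3⟩ := hS.r x hx (nP x hxP)
    exact ⟨a1, a2, a3.imp (fun h => yP _ h) id⟩
  · intro i hi hi'
    obtain ⟨A', B', hAB⟩ := hS.rt (p (m + i)) ((Z5 _).2 ⟨i, hi, hi', rfl⟩)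
    exact Z8 i _ A' B' hi hi' hAB
  · intro y hy hyQ
    obtain ⟨a1, a2, a3, a4, a5, a6⟩ := hS.u y hy (by
      intro h
      obtain ⟨i, hi, hi', he⟩ := (Z2 y).1 h
      exact hyQ i hi hi' he)
    refine ⟨a1, ?_, a3, a4.imp (fun h => yP _ h) id, a5, a6⟩
    intro i hi he
    exact a2 ((Z1 _).2 ⟨i, hi, he⟩)
  · intro x hx y hy hxP hyP he
    exact hS.inj x hx y hy (nP x hxP) (nP y hyP) he
  · intro x hx hxP hc
    exact hS.p2 x hx (nP x hxP) hc
  · intro x hx hxP hc
    exact hS.p1 x hx (nP x hxP) hc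
  · intro x hx hxP hc i hi hi'
    exact hS.p1' x hx (nP x hxP) hc _ ((Z4 _).2 ⟨i, hi, hi', rfl⟩)
  · intro x hx hxP hc i hi hi'
    exact hS.p0 x hx (nP x hxP) hc _ ((Z3 _).2 ⟨i, hi, hi', rfl⟩)
  · exact Z9 (fun u v => ρ u < ρ v) hS.inc

end Pool.Agent.helper57.PP
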